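import Mathlib

set_option autoImplicit false

/-!
Combinatorial part for Feynman checkers: the sums `u`, `w` and their recurrences.
-/

namespace Pool.Agent.NH91.Fey

open Finset

/-- `u m n = ∑ (-1)^r C(m,r) C(n,r)` -/
def u (m n : ℕ) : ℤ := ∑ r ∈ range (m + n + 1), (-1) ^ r * (m.choose r : ℤ) * (n.choose r : ℤ)

/-- `w m n = ∑ (-1)^r C(m,r+1) C(n,r)` -/
def w (m n : ℕ) : ℤ := ∑ r ∈ range (m + n + 1), (-1) ^ r * (m.choose (r + 1) : ℤ) * (n.choose r : ℤ)

theorem u_eq (m n K : ℕ) (hK : m + n + 1 ≤ K) :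
    u m n = ∑ r ∈ range K, (-1) ^ r * (m.choose r : ℤ) * (n.choose r : ℤ) := by
  unfold u
  refine Finset.sum_subset (Finset.range_mono hK) ?_
  intro r _ hr
  rw [Finset.mem_range, not_lt] at hr
  rw [Nat.choose_eq_zero_of_lt (by omega : n < r)]
  simp

theorem w_eq (m n K : ℕ) (hK : m + n + 1 ≤ K) :
    w m n = ∑ r ∈ range K, (-1) ^ r * (m.choose (r + 1) : ℤ) * (n.choose r : ℤ) := by
  unfold w
  refine Finset.sum_subset (Finset.range_mono hK) ?_
  intro r _ hr
  rw [Finset.mem_range, not_lt] at hr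
  rw [Nat.choose_eq_zero_of_lt (by omega : n < r)]
  simp

theorem u_comm (m n : ℕ) : u m n = u n m := by
  unfold u
  rw [add_comm m n]
  refine Finset.sum_congr rfl fun r _ => ?_
  ring

theorem u_zero_right (m : ℕ) : u m 0 = 1 := by
  rw [u_eq m 0 (m + 0 + 1 + 1) (by omega), Finset.sum_range_succ']
  simp

theorem w_zero_right (m : ℕ) : w m 0 = m := by
  rw [w_eq m 0 (m + 0 + 1 + 1) (by omega), Finset.sum_range_succ']
  simp

theorem w_zero_left (n : ℕ) : w 0 n = 0 := by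
  unfold w
  simp

theorem u_succ_right (m n : ℕ) : u m (n + 1) = u m n - w m n := by
  rw [u_eq m (n + 1) (m + n + 1 + 1) (by omega), u_eq m n (m + n + 1 + 1) (by omega),
    w_eq m n (m + n + 1) (by omega), Finset.sum_range_succ', Finset.sum_range_succ' _ (m + n + 1)]
  simp only [Nat.choose_succ_succ, Nat.choose_zero_right]
  rw [add_sub_right_comm, ← Finset.sum_sub_distrib]
  congr 1
  refine Finset.sum_congr rfl fun r _ => ?_
  push_cast
  ring

theorem w_succ_left (m n : ℕ) : w (m + 1) n = w m n + u m n := by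
  rw [w_eq (m + 1) n (m + n + 2) (by omega), w_eq m n (m + n + 2) (by omega),
    u_eq m n (m + n + 2) (by omega), ← Finset.sum_add_distrib]
  refine Finset.sum_congr rfl fun r _ => ?_
  rw [Nat.choose_succ_succ]
  push_cast
  ring

/-- the symmetry of `w` -/
theorem w_symm (m n : ℕ) : ((n : ℤ) + 1) * w (m + 1) n = ((m : ℤ) + 1) * w (n + 1) m := by
  rw [w_eq (m + 1) n (m + n + 2) (by omega), w_eq (n + 1) m (m + n + 2) (by omega),
    Finset.mul_sum, Finset.mul_sum]
  refine Finset.sum_congr rfl fun r _ => ?_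
  have h1 : ((m : ℤ) + 1) * (m.choose r : ℤ) = ((m + 1).choose (r + 1) : ℤ) * ((r : ℤ) + 1) := by
    exact_mod_cast Nat.add_one_mul_choose_eq m r
  have h2 : ((n : ℤ) + 1) * (n.choose r : ℤ) = ((n + 1).choose (r + 1) : ℤ) * ((r : ℤ) + 1) := by
    exact_mod_cast Nat.add_one_mul_choose_eq n r
  have h3 : ((r : ℤ) + 1) ≠ 0 := by positivity
  apply mul_right_cancel₀ h3
  calc ((n : ℤ) + 1) * ((-1) ^ r * ((m + 1).choose (r + 1) : ℤ) * (n.choose r : ℤ)) * ((r : ℤ) + 1)
      = (-1) ^ r * (((m + 1).choose (r + 1) : ℤ) * ((r : ℤ) + 1)) *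
          (((n : ℤ) + 1) * (n.choose r : ℤ)) := by ring
    _ = (-1) ^ r * (((m : ℤ) + 1) * (m.choose r : ℤ)) *
          (((n + 1).choose (r + 1) : ℤ) * ((r : ℤ) + 1)) := by rw [h1, h2]
    _ = _ := by ring

/-- first step relation -/
theorem step_u (m n : ℕ) :
    ((m : ℤ) + 1) * u m (n + 1) = ((m : ℤ) + 1) * u (m + 1) n - ((m : ℤ) - n) * w (m + 1) n := by
  -- u (m+1) (n+1) two ways
  have h1 : u (m + 1) (n + 1) = u (m + 1) n - w (m + 1) n := u_succ_right _ _
  have h2 : u (n + 1) (m + 1) = u (n + 1) m - w (n + 1) m := u_succ_right _ _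
  rw [u_comm (n + 1) (m + 1), u_comm (n + 1) m] at h2
  have h3 := w_symm m n
  have h4 : u m (n + 1) = u (m + 1) n - w (m + 1) n + w (n + 1) m := by linarith
  rw [h4]
  linear_combination -h3

/-- second step relation -/
theorem step_w (m n : ℕ) :
    ((n : ℤ) + 2) * w m (n + 1) = ((n : ℤ) + 1) * w (m + 1) n + ((m : ℤ) - n - 1) * u m (n + 1) := by
  have h1 : w (m + 1) (n + 1) = w m (n + 1) + u m (n + 1) := w_succ_left _ _
  have h2 : w (n + 1 + 1) m = w (n + 1) m + u (n + 1) m := w_succ_left _ _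
  have h3 := w_symm m n
  have h4 := w_symm m (n + 1)
  rw [u_comm (n + 1) m] at h2
  push_cast at h4
  rw [h1, h2] at h4
  linear_combination h4 - h3

end Pool.Agent.NH91.Fey
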