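import Mathlib
import Pool.Agent.NH91.FeyComb

set_option autoImplicit false

/-!
Analysis for Feynman checkers: monotonicity on the right of the turning point.
-/

namespace Pool.Agent.NH91.Fey

/-- The invariant of the recursion. -/
theorem inv_step (T Y U V U' V' b b' : ℝ) (hU : 0 < U) (hV : (Y + b) * U ≤ (T - Y) * V)
    (e1 : (T + Y) * U' = 2 * Y * V - (T + Y) * U)
    (e2 : (T - Y + 2) * V' = 2 * (Y - 1) * U' - (T - Y) * V)
    (hY : 0 < Y) (hTY : Y < T)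
    (c1 : 0 < Y ^ 2 + (2 * Y ^ 2 - T ^ 2) + 2 * Y * b)
    (c2 : 0 ≤ Y ^ 2 + (2 * Y ^ 2 - T ^ 2) - 2 * Y * b')
    (c3 : 0 ≤ 2 * Y * ((2 * Y ^ 2 - T ^ 2) - b * b') + (Y ^ 2 + (2 * Y ^ 2 - T ^ 2)) * (b - b')) :
    0 < U' ∧ (Y - 2 + b') * U' ≤ (T - Y + 2) * V' := by
  have h1 : 0 < T - Y := by linarith
  have h2 : 0 < T + Y := by linarith
  have h12 : 0 < (T + Y) * (T - Y) := mul_pos h2 h1
  constructor
  · have h3 : (Y ^ 2 + (2 * Y ^ 2 - T ^ 2) + 2 * Y * b) * U ≤ ((T + Y) * (T - Y)) * U' := by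
      have h4 : (T - Y) * ((T + Y) * U') = (T - Y) * (2 * Y * V - (T + Y) * U) := by rw [e1]
      have h5 : 2 * Y * ((Y + b) * U) ≤ 2 * Y * ((T - Y) * V) :=
        mul_le_mul_of_nonneg_left hV (by linarith)
      nlinarith
    have h6 : 0 < ((T + Y) * (T - Y)) * U' := lt_of_lt_of_le (mul_pos c1 hU) h3
    exact (mul_pos_iff_of_pos_left h12).1 h6
  · have h3 : 0 ≤ ((T + Y) * (T - Y)) * ((T - Y + 2) * V' - (Y - 2 + b') * U') := by
      have h4 : ((T + Y) * (T - Y)) * ((T - Y + 2) * V' - (Y - 2 + b') * U') =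
          (T - Y) * V * (Y ^ 2 + (2 * Y ^ 2 - T ^ 2) - 2 * Y * b') -
            (T - Y) * ((Y - b') * (T + Y) * U) := by
        rw [e2]
        linear_combination (T - Y) * (Y - b') * e1
      rw [h4]
      have h5 : (Y + b) * U * (Y ^ 2 + (2 * Y ^ 2 - T ^ 2) - 2 * Y * b') ≤
          (T - Y) * V * (Y ^ 2 + (2 * Y ^ 2 - T ^ 2) - 2 * Y * b') :=
        mul_le_mul_of_nonneg_right hV c2
      have h6 : 0 ≤ U * (2 * Y * ((2 * Y ^ 2 - T ^ 2) - b * b') +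
          (Y ^ 2 + (2 * Y ^ 2 - T ^ 2)) * (b - b')) := mul_nonneg hU.le c3
      nlinarith
    have h7 := nonneg_of_mul_nonneg_right h3 h12
    linarith

/-- The last step: growth. -/
theorem growth (T Y U V U' V' b : ℝ) (hU : 0 < U) (hV : (Y + b) * U ≤ (T - Y) * V)
    (e1 : (T + Y) * U' = 2 * Y * V - (T + Y) * U)
    (e2 : (T - Y + 2) * V' = 2 * (Y - 1) * U' - (T - Y) * V)
    (hY : 0 < Y) (hTY : Y < T) (hb : 0 ≤ b)
    (c1 : 0 < (2 * Y ^ 2 - T ^ 2) + Y * b)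
    (c2 : 0 ≤ Y ^ 2 + (2 * Y ^ 2 - T ^ 2) - 3 * Y - T)
    (c3 : 0 < 2 * Y * (2 * Y ^ 2 - T ^ 2) - 2 * Y ^ 2 - T * Y - (2 * Y ^ 2 - T ^ 2) +
      b * (Y ^ 2 + (2 * Y ^ 2 - T ^ 2) - 3 * Y - T)) :
    U ^ 2 + V ^ 2 < U' ^ 2 + V' ^ 2 := by
  have h1 : 0 < T - Y := by linarith
  have h2 : 0 < T + Y := by linarith
  have h12 : 0 < (T + Y) * (T - Y) := mul_pos h2 h1
  have hVp : 0 < V := by
    have : 0 < (T - Y) * V := lt_of_lt_of_le (mul_pos (by linarith) hU) hV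
    exact (mul_pos_iff_of_pos_left h1).1 this
  have hU' : U < U' := by
    have h3 : 0 < ((T + Y) * (T - Y)) * (U' - U) := by
      have h4 : ((T + Y) * (T - Y)) * (U' - U) =
          2 * Y * ((T - Y) * V) - 2 * ((T + Y) * (T - Y)) * U := by
        linear_combination (T - Y) * e1
      rw [h4]
      have h5 : 2 * Y * ((Y + b) * U) ≤ 2 * Y * ((T - Y) * V) :=
        mul_le_mul_of_nonneg_left hV (by linarith)
      have h6 : 0 < U * ((2 * Y ^ 2 - T ^ 2) + Y * b) := mul_pos hU c1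
      nlinarith
    have := (mul_pos_iff_of_pos_left h12).1 h3
    linarith
  have hV' : V < V' := by
    have h0 : 0 < (T + Y) * (T - Y) := h12
    have h3 : 0 < ((T + Y) * (T - Y)) * ((T - Y + 2) * (V' - V)) := by
      have h4 : ((T + Y) * (T - Y)) * ((T - Y + 2) * (V' - V)) =
          2 * ((T - Y) * V * (Y ^ 2 + (2 * Y ^ 2 - T ^ 2) - 3 * Y - T) -
            (Y - 1) * (T + Y) * (T - Y) * U) := by
        have : (T - Y + 2) * (V' - V) = 2 * (Y - 1) * U' - (T - Y) * V - (T - Y + 2) * V := by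
          linear_combination e2
        rw [this]
        linear_combination 2 * (T - Y) * (Y - 1) * e1
      rw [h4]
      have h5 : (Y + b) * U * (Y ^ 2 + (2 * Y ^ 2 - T ^ 2) - 3 * Y - T) ≤
          (T - Y) * V * (Y ^ 2 + (2 * Y ^ 2 - T ^ 2) - 3 * Y - T) :=
        mul_le_mul_of_nonneg_right hV c2
      have h6 : 0 < U * (2 * Y * (2 * Y ^ 2 - T ^ 2) - 2 * Y ^ 2 - T * Y - (2 * Y ^ 2 - T ^ 2) +
        b * (Y ^ 2 + (2 * Y ^ 2 - T ^ 2) - 3 * Y - T)) := mul_pos hU c3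
      nlinarith
    have h7 := (mul_pos_iff_of_pos_left h12).1 h3
    have h8 := (mul_pos_iff_of_pos_left (by linarith : 0 < T - Y + 2)).1 h7
    linarith
  nlinarith

/-- The barrier. -/
noncomputable def bar (c η Y1 Y : ℝ) : ℝ := c - η / 2 * max 0 (Y1 - Y)

/-- the sign-adjusted sequences -/
noncomputable def UU (m j : ℕ) : ℝ := (-1) ^ j * (u m j : ℝ)
noncomputable def VV (m j : ℕ) : ℝ := (-1) ^ j * (w m j : ℝ)

theorem rec1 (m j : ℕ) (T Y : ℝ) (hT : T = m + j + 2) (hY : Y = (m : ℝ) - j) :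
    (T + Y) * UU m (j + 1) = 2 * Y * VV (m + 1) j - (T + Y) * UU (m + 1) j := by
  have h := step_u m j
  have h' : ((m : ℝ) + 1) * (u m (j + 1) : ℝ) =
      ((m : ℝ) + 1) * (u (m + 1) j : ℝ) - ((m : ℝ) - j) * (w (m + 1) j : ℝ) := by
    exact_mod_cast h
  unfold UU VV
  rw [hT, hY, pow_succ]
  linear_combination (-2) * (-1 : ℝ) ^ j * h'

theorem rec2 (m j : ℕ) (T Y : ℝ) (hT : T = m + j + 2) (hY : Y = (m : ℝ) - j) :
    (T - Y + 2) * VV m (j + 1) = 2 * (Y - 1) * UU m (j + 1) - (T - Y) * VV (m + 1) j := by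
  have h := step_w m j
  have h' : ((j : ℝ) + 2) * (w m (j + 1) : ℝ) =
      ((j : ℝ) + 1) * (w (m + 1) j : ℝ) + ((m : ℝ) - j - 1) * (u m (j + 1) : ℝ) := by
    exact_mod_cast h
  unfold UU VV
  rw [hT, hY, pow_succ]
  linear_combination (-2) * (-1 : ℝ) ^ j * h'

end Pool.Agent.NH91.Fey
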