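import Mathlib
import Pool.Agent.NH91.FeyComb

set_option autoImplicit false

/-!
Checker paths: the path sums are given by `u` and `w`.
-/

namespace Pool.Agent.NH91.Fey

open Finset

/-- number of turns of the path coded by `s` -/
def turns {n : ℕ} (s : Fin (n + 1) → Bool) : ℕ :=
  (Finset.univ.filter (fun i : Fin n => s i.castSucc ≠ s i.succ)).card

/-- end point of the path -/
def endp {n : ℕ} (s : Fin n → Bool) : ℤ := ∑ i, (if s i then (1 : ℤ) else -1)

/-- sum over paths with `n + 1` steps, first step to the right, end point `y`, last step `b` -/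
noncomputable def amp (n : ℕ) (b : Bool) (y : ℤ) : ℂ :=
  ∑ s ∈ Finset.univ.filter (fun s : Fin (n + 1) → Bool =>
    s 0 = true ∧ endp s = y ∧ s (Fin.last n) = b), (-Complex.I) ^ turns s

/-- the real coefficients: even number of turns (last step to the right) -/
def A : ℕ → Bool → ℤ → ℤ
  | 0, true, y => if y = 1 then 1 else 0
  | 0, false, _ => 0
  | n + 1, true, y => A n true (y - 1) - A n false (y - 1)
  | n + 1, false, y => A n false (y + 1) + A n true (y + 1)

theorem turns_snoc {n : ℕ} (s : Fin (n + 1) → Bool) (b : Bool) :
    turns (Fin.snoc (α := fun _ => Bool) s b : Fin (n + 2) → Bool) =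
      turns s + if s (Fin.last n) ≠ b then 1 else 0 := by
  unfold turns
  rw [Finset.card_filter, Finset.card_filter, Fin.sum_univ_castSucc]
  congr 1
  · refine Finset.sum_congr rfl fun i _ => ?_
    rw [Fin.snoc_castSucc, Fin.succ_castSucc, Fin.snoc_castSucc]
  · rw [Fin.snoc_castSucc, Fin.succ_last, Fin.snoc_last]

theorem endp_snoc {n : ℕ} (s : Fin (n + 1) → Bool) (b : Bool) :
    endp (Fin.snoc (α := fun _ => Bool) s b : Fin (n + 2) → Bool) =
      endp s + if b then 1 else -1 := by
  unfold endp
  rw [Fin.sum_univ_castSucc]
  congr 1
  · refine Finset.sum_congr rfl fun i _ => ?_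
    rw [Fin.snoc_castSucc]
  · rw [Fin.snoc_last]

theorem amp_succ (n : ℕ) (b : Bool) (y : ℤ) :
    amp (n + 1) b y = amp n b (y - if b then 1 else -1) +
      (-Complex.I) * amp n (!b) (y - if b then 1 else -1) := by
  classical
  unfold amp
  have key : ∀ F : (Fin (n + 2) → Bool) → ℂ,
      ∑ s, F s = ∑ p : (Fin (n + 1) → Bool) × Bool,
        F (Fin.snoc (α := fun _ => Bool) p.1 p.2) := by
    intro F
    refine (Fintype.sum_equiv ((Equiv.prodComm _ _).trans
      (Fin.snocEquiv (fun _ : Fin (n + 2) => Bool))) _ _ ?_).symm
    intro p
    rfl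
  rw [Finset.sum_filter, key, Fintype.sum_prod_type, Finset.sum_filter, Finset.sum_filter,
    Finset.mul_sum, ← Finset.sum_add_distrib]
  refine Finset.sum_congr rfl fun s _ => ?_
  have h0 : ∀ c : Bool, (Fin.snoc (α := fun _ => Bool) s c : Fin (n + 2) → Bool) 0 = s 0 := by
    intro c
    have := Fin.snoc_castSucc (α := fun _ : Fin (n + 2) => Bool) (x := c) (p := s) (i := 0)
    simpa using this
  simp only [h0, turns_snoc, endp_snoc, Fin.snoc_last]
  have e1 : ∀ a : ℤ, endp s + a = y ↔ endp s = y - a := fun a => by
    constructor <;> intro h <;> linarith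
  simp only [e1]
  rw [Fintype.sum_bool]
  rcases b with _ | _ <;> rcases hl : s (Fin.last n) with _ | _ <;>
    by_cases h1 : s 0 = true <;> simp [h1] <;>
    split_ifs <;> simp_all [pow_succ] <;> ring

theorem amp_zero (b : Bool) (y : ℤ) :
    amp 0 b y = if b = true ∧ y = 1 then 1 else 0 := by
  classical
  unfold amp
  have h : ∀ s : Fin 1 → Bool, (s 0 = true ∧ endp s = y ∧ s (Fin.last 0) = b) ↔
      (s = fun _ => true) ∧ (b = true ∧ y = 1) := by
    intro s
    constructor
    · rintro ⟨h1, h2, h3⟩
      have hs : s = fun _ => true := by
        funext i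
        rw [Subsingleton.elim i 0, h1]
      subst hs
      simp [endp] at h2 h3
      exact ⟨rfl, h3, h2.symm⟩
    · rintro ⟨rfl, rfl, rfl⟩
      simp [endp]
  rw [Finset.sum_filter]
  simp only [h]
  by_cases hb : b = true ∧ y = 1
  · simp only [hb, and_true, if_true, and_self]
    simp [turns]
  · simp [hb]

theorem amp_eq (n : ℕ) (y : ℤ) :
    amp n true y = (A n true y : ℂ) ∧ amp n false y = -Complex.I * (A n false y : ℂ) := by
  induction n generalizing y with
  | zero =>
    rw [amp_zero, amp_zero]
    constructor
    · by_cases hy : y = 1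
      · simp [A, hy]
      · simp [A, hy]
    · simp [A]
  | succ n ih =>
    rw [amp_succ, amp_succ]
    have h1 := ih (y - 1)
    have h2 := ih (y + 1)
    constructor
    · simp only [if_true, Bool.not_true]
      rw [h1.1, h1.2]
      simp only [A]
      push_cast
      have := Complex.I_mul_I
      linear_combination (A n false (y - 1) : ℂ) * this
    · simp only [Bool.false_eq_true, if_false, Bool.not_false, sub_neg_eq_add]
      rw [h2.1, h2.2]
      simp only [A]
      push_cast
      ring

theorem total (n : ℕ) (y : ℤ) :
    ‖∑ s ∈ Finset.univ.filter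
      (fun s : Fin (n+1) → Bool =>
        s 0 = true ∧ ∑ i, (if s i then (1:ℤ) else -1) = y),
      (-Complex.I) ^ ((Finset.univ.filter
        (fun i : Fin n => s i.castSucc ≠ s i.succ)).card)‖ ^ 2 =
      (A n true y : ℝ) ^ 2 + (A n false y : ℝ) ^ 2 := by
  classical
  have h : (∑ s ∈ Finset.univ.filter
      (fun s : Fin (n+1) → Bool =>
        s 0 = true ∧ ∑ i, (if s i then (1:ℤ) else -1) = y),
      (-Complex.I) ^ ((Finset.univ.filter
        (fun i : Fin n => s i.castSucc ≠ s i.succ)).card)) = amp n true y + amp n false y := by
    unfold amp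
    rw [Finset.sum_filter, Finset.sum_filter, Finset.sum_filter, ← Finset.sum_add_distrib]
    refine Finset.sum_congr rfl fun s _ => ?_
    rcases hl : s (Fin.last n) with _ | _ <;> simp [endp, turns]
  rw [h, (amp_eq n y).1, (amp_eq n y).2, ← Complex.normSq_eq_norm_sq, Complex.normSq_apply]
  simp
  ring

/-- no path ends too far to the right -/
theorem A_far_right (n : ℕ) (b : Bool) (y : ℤ) (hy : (n : ℤ) + 1 < y) : A n b y = 0 := by
  induction n generalizing b y with
  | zero =>
    rcases b with _ | _
    · simp [A]
    · simp only [A]
      rw [if_neg]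
      push_cast at hy
      omega
  | succ n ih =>
    push_cast at hy
    rcases b with _ | _
    · simp only [A]
      rw [ih, ih]
      · rfl
      · omega
      · omega
    · simp only [A]
      rw [ih, ih]
      · rfl
      · omega
      · omega

/-- no path ends too far to the left -/
theorem A_far_left (n : ℕ) (b : Bool) (y : ℤ) (hy : y ≤ -((n : ℤ) + 1)) : A n b y = 0 := by
  induction n generalizing b y with
  | zero =>
    rcases b with _ | _
    · simp [A]
    · simp only [A]
      rw [if_neg]
      push_cast at hy
      omega
  | succ n ih =>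
    push_cast at hy
    rcases b with _ | _
    · simp only [A]
      rw [ih, ih]
      · rfl
      · omega
      · omega
    · simp only [A]
      rw [ih, ih]
      · rfl
      · omega
      · omega

/-- parity -/
theorem A_parity (n : ℕ) (b : Bool) (y : ℤ) (hy : ¬ (2 : ℤ) ∣ (n : ℤ) + 1 - y) : A n b y = 0 := by
  induction n generalizing b y with
  | zero =>
    rcases b with _ | _
    · simp [A]
    · simp only [A]
      rw [if_neg]
      rintro rfl
      exact hy (by norm_num)
  | succ n ih =>
    push_cast at hy
    rcases b with _ | _
    · simp only [A]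
      rw [ih, ih]
      · rfl
      · omega
      · omega
    · simp only [A]
      rw [ih, ih]
      · rfl
      · omega
      · omega

/-- only right steps -/
theorem A_right (n : ℕ) : A n true ((n : ℤ) + 1) = 1 ∧ A n false ((n : ℤ) + 1) = 0 := by
  induction n with
  | zero => simp [A]
  | succ n ih =>
    constructor
    · simp only [A]
      push_cast
      rw [show (n : ℤ) + 1 + 1 - 1 = n + 1 by ring, ih.1, ih.2]
      ring
    · simp only [A]
      rw [A_far_right, A_far_right]
      · rfl
      · push_cast; omega
      · push_cast; omega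

/-- the closed form for paths with `m + 1` steps to the right and `j + 1` steps to the left -/
theorem A_closed (n : ℕ) : ∀ m j : ℕ, m + j + 1 = n →
    A n true ((m : ℤ) - j) = - w m j ∧ A n false ((m : ℤ) - j) = u m j := by
  induction n with
  | zero => intro m j h; omega
  | succ n ih =>
    intro m j h
    have hn : n = m + j := by omega
    constructor
    · simp only [A]
      rcases m with _ | m
      · rw [w_zero_left, A_far_left, A_far_left]
        · simp
        · subst hn; push_cast; omega
        · subst hn; push_cast; omega
      · have := ih m j (by omega)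
        push_cast
        rw [show (m : ℤ) + 1 - j - 1 = m - j by ring, this.1, this.2, w_succ_left]
        ring
    · simp only [A]
      rcases j with _ | j
      · have hn' : n = m := by omega
        have := A_right m
        push_cast
        rw [hn', show (m : ℤ) - 0 + 1 = (m : ℤ) + 1 by ring, this.1, this.2, u_zero_right]
        ring
      · have := ih m j (by omega)
        push_cast
        rw [show (m : ℤ) - (j + 1) + 1 = m - j by ring, this.1, this.2, u_succ_right]
        ring

end Pool.Agent.NH91.Fey
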