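import Mathlib
import Pool.Agent.NH91.FeyAna
import Pool.Agent.NH91.FeyPath

set_option autoImplicit false

/-!
Main induction for Feynman checkers.
-/

namespace Pool.Agent.NH91.Fey

open Real

/-- parameters -/
structure Par (C T s K η c : ℝ) : Prop where
  C0 : 1 ≤ C
  s2 : s ^ 2 = 2
  s0 : 1.4 < s
  s1 : s < 1.5
  hK : K = 3 * C
  hη : η = 4 * K + 2
  hc : c = 4 * K + 6 + η * (C + 3)
  hT : 10 * C + 10 * (2 * K + 6) * (c + 1) ^ 2 + 10 * η * K + 10 ≤ T

variable {C T s K η c : ℝ}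

theorem Par.Ylow (h : Par C T s K η c) {Y : ℝ} (hY : T * s / 2 - C ≤ Y) : T / 2 ≤ Y := by
  obtain ⟨C0, s2, s0, s1, hK, hη, hc, hT⟩ := h
  have hK0 : 0 ≤ K := by rw [hK]; linarith
  have hη0 : 0 ≤ η := by rw [hη]; linarith
  have h1 : 10 * C ≤ T := by
    have : 0 ≤ 10 * (2 * K + 6) * (c + 1) ^ 2 := by positivity
    have : 0 ≤ 10 * η * K := by positivity
    linarith
  nlinarith

theorem Par.Wlow (h : Par C T s K η c) {Y : ℝ} (hY : T * s / 2 - C ≤ Y) :
    -(K * T) ≤ 2 * Y ^ 2 - T ^ 2 := by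
  have hY2 := h.Ylow hY
  obtain ⟨C0, s2, s0, s1, hK, hη, hc, hT⟩ := h
  have hK0 : 0 ≤ K := by rw [hK]; linarith
  have hη0 : 0 ≤ η := by rw [hη]; linarith
  have hT0 : 0 ≤ T := by
    have : 0 ≤ 10 * (2 * K + 6) * (c + 1) ^ 2 := by positivity
    have : 0 ≤ 10 * η * K := by positivity
    linarith
  have h1 : 0 ≤ T * s / 2 - C := by
    have : 0 ≤ 10 * (2 * K + 6) * (c + 1) ^ 2 := by positivity
    have : 0 ≤ 10 * η * K := by positivity
    nlinarith
  have h2 : (T * s / 2 - C) ^ 2 ≤ Y ^ 2 := by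
    apply pow_le_pow_left₀ h1 hY
  have h3 : (T * s / 2 - C) ^ 2 = T ^ 2 / 2 - T * s * C + C ^ 2 := by
    linear_combination (T ^ 2 / 4) * s2
  rw [h3] at h2
  have h4 : T * s * C ≤ T * 1.5 * C := by
    apply mul_le_mul_of_nonneg_right _ (by linarith)
    apply mul_le_mul_of_nonneg_left s1.le hT0
  rw [hK]
  nlinarith [sq_nonneg C]

theorem Par.Whigh (h : Par C T s K η c) {Y : ℝ} (hY : T * s / 2 + 1 ≤ Y) :
    c ^ 2 ≤ 2 * Y ^ 2 - T ^ 2 := by
  obtain ⟨C0, s2, s0, s1, hK, hη, hc, hT⟩ := h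
  have hK0 : 0 ≤ K := by rw [hK]; linarith
  have hη0 : 0 ≤ η := by rw [hη]; linarith
  have hc0 : 0 ≤ c := by rw [hc]; positivity
  have h0 : c ^ 2 ≤ T := by
    have h1 : c ^ 2 ≤ (c + 1) ^ 2 := by nlinarith
    have h2 : (c + 1) ^ 2 ≤ 10 * (2 * K + 6) * (c + 1) ^ 2 := by
      have : 1 ≤ 10 * (2 * K + 6) := by linarith
      nlinarith [sq_nonneg (c + 1)]
    have : 0 ≤ 10 * η * K := by positivity
    linarith
  have hT0 : 0 ≤ T := by
    have : 0 ≤ c ^ 2 := sq_nonneg c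
    linarith
  have h1 : 0 ≤ T * s / 2 + 1 := by
    have : 0 ≤ T * s := mul_nonneg hT0 (by linarith)
    linarith
  have h2 : (T * s / 2 + 1) ^ 2 ≤ Y ^ 2 := pow_le_pow_left₀ h1 hY 2
  have h3 : (T * s / 2 + 1) ^ 2 = T ^ 2 / 2 + T * s + 1 := by
    linear_combination (T ^ 2 / 4) * s2
  rw [h3] at h2
  nlinarith

theorem Par.pos (h : Par C T s K η c) : 0 ≤ K ∧ 0 ≤ η ∧ 0 ≤ c ∧ 0 < T := by
  obtain ⟨C0, s2, s0, s1, hK, hη, hc, hT⟩ := h
  have hK0 : 0 ≤ K := by rw [hK]; linarith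
  have hη0 : 0 ≤ η := by rw [hη]; linarith
  have hc0 : 0 ≤ c := by rw [hc]; positivity
  refine ⟨hK0, hη0, hc0, ?_⟩
  have : 0 ≤ 10 * (2 * K + 6) * (c + 1) ^ 2 := by positivity
  have : 0 ≤ 10 * η * K := by positivity
  linarith

set_option maxHeartbeats 2000000 in
/-- all conditions for the induction step -/
theorem Par.conds (h : Par C T s K η c) {Y : ℝ} (hY : T * s / 2 - C + 2 ≤ Y) :
    0 < Y ^ 2 + (2 * Y ^ 2 - T ^ 2) + 2 * Y * bar c η (T * s / 2 + 1) Y ∧
    0 ≤ Y ^ 2 + (2 * Y ^ 2 - T ^ 2) - 2 * Y * bar c η (T * s / 2 + 1) (Y - 2) ∧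
    0 ≤ 2 * Y * ((2 * Y ^ 2 - T ^ 2) -
      bar c η (T * s / 2 + 1) Y * bar c η (T * s / 2 + 1) (Y - 2)) +
      (Y ^ 2 + (2 * Y ^ 2 - T ^ 2)) *
        (bar c η (T * s / 2 + 1) Y - bar c η (T * s / 2 + 1) (Y - 2)) := by
  have hY2 := h.Ylow (Y := Y) (by linarith)
  have hW := h.Wlow (Y := Y) (by linarith)
  have hW2 := h.Whigh (Y := Y)
  obtain ⟨hK0, hη0, hc0, hT0⟩ := h.pos
  obtain ⟨C0, s2, s0, s1, hK, hη, hc, hT⟩ := h
  set W := 2 * Y ^ 2 - T ^ 2 with hWdef
  set b := bar c η (T * s / 2 + 1) Y with hb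
  set b' := bar c η (T * s / 2 + 1) (Y - 2) with hb'
  have hYpos : 0 < Y := by linarith
  -- bounds
  have hbc : b ≤ c := by
    rw [hb]; unfold bar
    have : 0 ≤ η / 2 * max 0 (T * s / 2 + 1 - Y) := by positivity
    linarith
  have hbb' : b' ≤ b := by
    rw [hb, hb']; unfold bar
    have h1 : max 0 (T * s / 2 + 1 - Y) ≤ max 0 (T * s / 2 + 1 - (Y - 2)) :=
      max_le_max le_rfl (by linarith)
    have : η / 2 * max 0 (T * s / 2 + 1 - Y) ≤ η / 2 * max 0 (T * s / 2 + 1 - (Y - 2)) :=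
      mul_le_mul_of_nonneg_left h1 (by linarith)
    linarith
  have hb'0 : 0 ≤ b' := by
    rw [hb']; unfold bar
    have h1 : max 0 (T * s / 2 + 1 - (Y - 2)) ≤ C + 1 := by
      apply max_le <;> linarith
    have h2 : η / 2 * max 0 (T * s / 2 + 1 - (Y - 2)) ≤ η / 2 * (C + 1) :=
      mul_le_mul_of_nonneg_left h1 (by linarith)
    rw [hc]
    nlinarith
  have hcb : b * b' ≤ c ^ 2 := by
    rw [pow_two]
    exact mul_le_mul hbc (hbb'.trans hbc) hb'0 hc0
  have hbig1 : 0 ≤ 10 * (2 * K + 6) * (c + 1) ^ 2 := by positivity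
  have hbig2 : 0 ≤ 10 * η * K := by positivity
  have hTK : 20 * K ≤ T := by nlinarith [sq_nonneg c]
  have hYK : K * T ≤ Y ^ 2 / 2 := by nlinarith
  have hT1 : T ≤ 2 * Y := by linarith
  have hb0 : 0 ≤ b := hb'0.trans hbb'
  have hYb : 0 ≤ 2 * Y * b := by positivity
  refine ⟨?_, ?_, ?_⟩
  · nlinarith
  · have h1 : 2 * Y * b' ≤ 2 * Y * c := mul_le_mul_of_nonneg_left (hbb'.trans hbc) (by linarith)
    have h2 : 8 * c ≤ T := by nlinarith [sq_nonneg c]
    nlinarith
  · by_cases hcase : T * s / 2 + 1 ≤ Y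
    · have hW3 := hW2 hcase
      have h1 : 0 ≤ 2 * Y * (W - b * b') := by
        apply mul_nonneg (by linarith); linarith
      have h2 : 0 ≤ (Y ^ 2 + W) * (b - b') := by
        apply mul_nonneg _ (by linarith)
        nlinarith [sq_nonneg c]
      linarith
    · push Not at hcase
      have e : b - b' = η := by
        rw [hb, hb']; unfold bar
        rw [max_eq_right (by linarith), max_eq_right (by linarith)]
        ring
      rw [e]
      have h1 : 2 * Y * (W - b * b') ≥ 2 * Y * (-(K * T) - c ^ 2) := by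
        apply mul_le_mul_of_nonneg_left _ (by linarith); linarith
      have h2 : (Y ^ 2 + W) * η ≥ (Y ^ 2 - K * T) * η := by
        apply mul_le_mul_of_nonneg_right _ hη0; linarith
      have h3 : 2 * Y * (K * T) ≤ 4 * K * Y ^ 2 := by
        have e1 := mul_le_mul_of_nonneg_left hT1 (by positivity : 0 ≤ 2 * K * Y)
        have e2 : 2 * Y * (K * T) = 2 * K * Y * T := by ring
        have e3 : 2 * K * Y * (2 * Y) = 4 * K * Y ^ 2 := by ring
        linarith
      have h4 : K * T * η ≤ 2 * η * K * Y := by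
        have e1 := mul_le_mul_of_nonneg_left hT1 (by positivity : 0 ≤ K * η)
        have e2 : K * T * η = K * η * T := by ring
        have e3 : K * η * (2 * Y) = 2 * η * K * Y := by ring
        linarith
      have hc2 : c ^ 2 ≤ (2 * K + 6) * (c + 1) ^ 2 := by
        have e1 : c ^ 2 ≤ (c + 1) ^ 2 := by nlinarith
        have e2 : (c + 1) ^ 2 * 1 ≤ (c + 1) ^ 2 * (2 * K + 6) :=
          mul_le_mul_of_nonneg_left (by linarith) (sq_nonneg _)
        linarith
      have h5 : η * K + c ^ 2 ≤ Y := by linarith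
      have h6 : (η * K + c ^ 2) * Y ≤ Y * Y := mul_le_mul_of_nonneg_right h5 hYpos.le
      have h7 : η * Y ^ 2 = 4 * K * Y ^ 2 + 2 * Y ^ 2 := by rw [hη]; ring
      have h8 : (Y ^ 2 - K * T) * η = η * Y ^ 2 - K * T * η := by ring
      have h9 : 2 * Y * (-(K * T) - c ^ 2) = - (2 * Y * (K * T)) - 2 * (c ^ 2 * Y) := by ring
      have h10 : (η * K + c ^ 2) * Y = η * K * Y + c ^ 2 * Y := by ring
      have h11 : 2 * η * K * Y = 2 * (η * K * Y) := by ring
      have h12 : Y * Y = Y ^ 2 := by ring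
      linarith

/-- the invariant holds up to the turning point and a bit further -/
theorem Par.inv (h : Par C T s K η c) : ∀ j m : ℕ, T = (m : ℝ) + j + 1 →
    T * s / 2 - C ≤ (m : ℝ) - j - 1 →
    0 < UU m j ∧ ((m : ℝ) - j - 1 + bar c η (T * s / 2 + 1) ((m : ℝ) - j - 1)) * UU m j ≤
      (T - ((m : ℝ) - j - 1)) * VV m j := by
  intro j
  induction j with
  | zero =>
    intro m hTm hreg
    obtain ⟨hK0, hη0, hc0, hT0⟩ := h.pos
    have hbar : bar c η (T * s / 2 + 1) ((m : ℝ) - (0 : ℕ) - 1) ≤ c := by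
      unfold bar
      have : 0 ≤ η / 2 * max 0 (T * s / 2 + 1 - ((m : ℝ) - (0 : ℕ) - 1)) := by positivity
      linarith
    have hcT : c ≤ T := by
      have := h.hT
      have : 0 ≤ 10 * η * K := by positivity
      have := h.C0
      nlinarith [sq_nonneg c]
    unfold UU VV
    rw [u_zero_right, w_zero_right]
    constructor
    · norm_num
    · have hTm' : T = (m : ℝ) + 1 := by push_cast at hTm; linarith
      have e : T - ((m : ℝ) - (0 : ℕ) - 1) = 2 := by push_cast; linarith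
      rw [e]
      push_cast at hbar ⊢
      simp only [pow_zero, one_mul, mul_one]
      linarith
  | succ j ih =>
    intro m hTm hreg
    push_cast at hTm hreg ⊢
    have ih' := ih (m + 1) (by push_cast; linarith) (by push_cast; linarith)
    push_cast at ih'
    obtain ⟨hU, hV⟩ := ih'
    have hY : (m : ℝ) + 1 - j - 1 = m - j := by ring
    rw [hY] at hV
    have hcond := h.conds (Y := (m : ℝ) - j) (by linarith)
    obtain ⟨c1, c2, c3⟩ := hcond
    have hlow := h.Ylow (Y := (m : ℝ) - j) (by linarith)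
    obtain ⟨hK0, hη0, hc0, hT0⟩ := h.pos
    have hstep := inv_step T ((m : ℝ) - j) (UU (m + 1) j) (VV (m + 1) j) (UU m (j + 1))
      (VV m (j + 1)) (bar c η (T * s / 2 + 1) ((m : ℝ) - j))
      (bar c η (T * s / 2 + 1) ((m : ℝ) - j - 2)) hU hV
      (rec1 m j T _ (by linarith) rfl) (rec2 m j T _ (by linarith) rfl) (by linarith)
      (by have : (0 : ℝ) ≤ j := Nat.cast_nonneg j
          linarith) c1 c2 c3
    have e1 : (m : ℝ) - (j + 1) - 1 = m - j - 2 := by ring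
    rw [e1]
    refine ⟨hstep.1, ?_⟩
    have e2 : T - ((m : ℝ) - j - 2) = T - ((m : ℝ) - j) + 2 := by ring
    rw [e2]
    exact hstep.2

set_option maxHeartbeats 2000000 in
/-- growth of the probability -/
theorem Par.grow (h : Par C T s K η c) (m j : ℕ) (hTm : T = (m : ℝ) + j + 2)
    (hreg : T * s / 2 - C ≤ (m : ℝ) - j) :
    ((u (m + 1) j : ℝ)) ^ 2 + (w (m + 1) j : ℝ) ^ 2 <
      (u m (j + 1) : ℝ) ^ 2 + (w m (j + 1) : ℝ) ^ 2 := by
  have hinv := h.inv j (m + 1) (by push_cast; linarith) (by push_cast; linarith)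
  push_cast at hinv
  obtain ⟨hU, hV⟩ := hinv
  have hY : (m : ℝ) + 1 - j - 1 = m - j := by ring
  rw [hY] at hV
  have hlow := h.Ylow (Y := (m : ℝ) - j) (by linarith)
  have hW := h.Wlow (Y := (m : ℝ) - j) (by linarith)
  obtain ⟨hK0, hη0, hc0, hT0⟩ := h.pos
  set Y := (m : ℝ) - j with hYdef
  set b := bar c η (T * s / 2 + 1) Y with hb
  have hbc : b ≤ c := by
    rw [hb]; unfold bar
    have : 0 ≤ η / 2 * max 0 (T * s / 2 + 1 - Y) := by positivity
    linarith
  have hbl : 4 * K + 6 ≤ b := by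
    rw [hb]; unfold bar
    have h1 : max 0 (T * s / 2 + 1 - Y) ≤ C + 1 := by
      have := h.C0
      apply max_le <;> linarith
    have h2 : η / 2 * max 0 (T * s / 2 + 1 - Y) ≤ η / 2 * (C + 1) :=
      mul_le_mul_of_nonneg_left h1 (by linarith)
    have := h.hc
    have := h.C0
    nlinarith
  have hTY : Y < T := by
    have : (0 : ℝ) ≤ j := Nat.cast_nonneg j
    linarith
  obtain ⟨C0, s2, s0, s1, hK, hη, hc, hT⟩ := h
  have hbig1 : 0 ≤ 10 * (2 * K + 6) * (c + 1) ^ 2 := by positivity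
  have hbig2 : 0 ≤ 10 * η * K := by positivity
  have hYpos : 0 < Y := by linarith
  have hT1 : T ≤ 2 * Y := by linarith
  set W := 2 * Y ^ 2 - T ^ 2 with hWdef
  have hKT : K * T ≤ 2 * K * Y := by
    have e1 := mul_le_mul_of_nonneg_left hT1 hK0
    have e2 : K * (2 * Y) = 2 * K * Y := by ring
    linarith
  have hbigY : (2 * K + 6) * (c + 1) ≤ Y := by
    have h1 : (2 * K + 6) * (c + 1) ≤ (2 * K + 6) * (c + 1) ^ 2 := by
      apply mul_le_mul_of_nonneg_left _ (by linarith)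
      have e1 : 0 ≤ (c + 1) * c := by positivity
      have e2 : (c + 1) ^ 2 = (c + 1) * c + (c + 1) := by ring
      linarith
    linarith
  have hb0 : 0 ≤ b := by linarith
  have hWK : -(2 * K * Y) ≤ W := by linarith
  have hY6 : 2 * K + 6 ≤ Y := by
    have : (2 * K + 6) * 1 ≤ (2 * K + 6) * (c + 1) :=
      mul_le_mul_of_nonneg_left (by linarith) (by linarith)
    linarith
  have hbY : (2 * K + 5) * b ≤ Y := by
    have e1 : (2 * K + 5) * b ≤ (2 * K + 6) * (c + 1) :=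
      mul_le_mul (by linarith) (by linarith) hb0 (by linarith)
    linarith
  have hYY : (2 * K + 6) * Y ≤ Y * Y := mul_le_mul_of_nonneg_right hY6 hYpos.le
  have hbYY : (2 * K + 5) * b * Y ≤ Y * Y := mul_le_mul_of_nonneg_right hbY hYpos.le
  have hblY : (4 * K + 6) * Y ≤ b * Y := mul_le_mul_of_nonneg_right hbl hYpos.le
  have hblYY : (4 * K + 6) * (Y * Y) ≤ b * (Y * Y) :=
    mul_le_mul_of_nonneg_right hbl (mul_nonneg hYpos.le hYpos.le)
  have hTYY : T * Y ≤ 2 * Y * Y := mul_le_mul_of_nonneg_right hT1 hYpos.le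
  have hTb : b * T ≤ b * (2 * Y) := mul_le_mul_of_nonneg_left hT1 hb0
  have hKY : 0 ≤ K * Y := mul_nonneg hK0 hYpos.le
  have d1 : 0 < W + Y * b := by
    have e1 : (4 * K + 6) * Y = 2 * K * Y + 2 * (K * Y) + 6 * Y := by ring
    have e2 : Y * b = b * Y := by ring
    rw [e2]
    linarith
  have d2 : 0 ≤ Y ^ 2 + W - 3 * Y - T := by
    have e1 : (2 * K + 6) * Y = 2 * K * Y + 6 * Y := by ring
    have e2 : Y ^ 2 = Y * Y := by ring
    rw [e2]
    linarith
  have d3 : 0 < 2 * Y * W - 2 * Y ^ 2 - T * Y - W + b * (Y ^ 2 + W - 3 * Y - T) := by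
    have e0 : 0 ≤ 2 * Y - 1 + b := by linarith
    have e1 := mul_le_mul_of_nonneg_right hWK e0
    have e2 : -(2 * K * Y) * (2 * Y - 1 + b) = -(4 * (K * (Y * Y))) + 2 * (K * Y) - 2 * K * b * Y := by
      ring
    have e3 : 2 * Y * W - 2 * Y ^ 2 - T * Y - W + b * (Y ^ 2 + W - 3 * Y - T) =
        W * (2 * Y - 1 + b) - 2 * (Y * Y) - T * Y + b * (Y * Y) - 3 * (b * Y) - b * T := by ring
    have e4 : (4 * K + 6) * (Y * Y) = 4 * (K * (Y * Y)) + 6 * (Y * Y) := by ring
    have e5 : (2 * K + 5) * b * Y = 2 * K * b * Y + 5 * (b * Y) := by ring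
    have e6 : 2 * Y * Y = 2 * (Y * Y) := by ring
    have e7 : b * (2 * Y) = 2 * (b * Y) := by ring
    have e8 : 0 < Y * Y := mul_pos hYpos hYpos
    rw [e3]
    linarith
  have := growth T Y (UU (m + 1) j) (VV (m + 1) j) (UU m (j + 1)) (VV m (j + 1)) b hU hV
    (rec1 m j T _ (by linarith) rfl) (rec2 m j T _ (by linarith) rfl) hYpos hTY hb0 d1 d2 d3
  unfold UU VV at this
  simpa [mul_pow, ← pow_mul, mul_comm] using this

end Pool.Agent.NH91.Fey
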